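import Pool.Agent.H43.TL2.M12

/-!
Real calculus on the complex plane for the project MQ: gradient, divergence, Laplacian,
integration by parts against compactly supported functions.
-/

namespace Pool.Agent.MQ

open MeasureTheory Complex

lemma ip_eq_inner (a b : ℂ) : ip a b = inner ℝ a b := by
  rw [Complex.inner]; simp [ip]; ring

lemma abs_ip_le (a b : ℂ) : |ip a b| ≤ ‖a‖ * ‖b‖ := by
  rw [ip_eq_inner]; exact abs_real_inner_le_norm a b

lemma ip_add_left (a b c : ℂ) : ip (a + b) c = ip a c + ip b c := by simp [ip]; ring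
lemma ip_neg_left (a b : ℂ) : ip (-a) b = - ip a b := by simp [ip]; ring
lemma ip_smul_left (t : ℝ) (a b : ℂ) : ip ((t : ℂ) * a) b = t * ip a b := by simp [ip]; ring

lemma clm_eq_ip (L : ℂ →L[ℝ] ℝ) (v : ℂ) : L v = ip (grL L) v := by
  have h : v = (v.re : ℝ) • (1 : ℂ) + (v.im : ℝ) • Complex.I := by
    apply Complex.ext <;> simp
  conv_lhs => rw [h]
  rw [map_add, map_smul, map_smul, grL_apply]
  simp [ip, mul_comm]

lemma norm_grL (L : ℂ →L[ℝ] ℝ) : ‖grL L‖ = ‖L‖ := by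
  apply le_antisymm
  · by_cases h0 : grL L = 0
    · rw [h0]; simp
    · have h := L.le_opNorm (grL L)
      rw [clm_eq_ip, ip_self, Real.norm_eq_abs, abs_of_nonneg (sq_nonneg _)] at h
      have hp : 0 < ‖grL L‖ := norm_pos_iff.2 h0
      nlinarith
  · apply ContinuousLinearMap.opNorm_le_bound _ (norm_nonneg _)
    intro v
    rw [clm_eq_ip, Real.norm_eq_abs]
    exact abs_ip_le _ _

lemma norm_gr (u : ℂ → ℝ) (z : ℂ) : ‖gr u z‖ = ‖fderiv ℝ u z‖ := norm_grL _

lemma dv_congr {V W : ℂ → ℂ} {z : ℂ} (h : V =ᶠ[nhds z] W) : dv V z = dv W z := by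
  unfold dv; rw [h.fderiv_eq]

lemma lp_congr {u v : ℂ → ℝ} {z : ℂ} (h : u =ᶠ[nhds z] v) : lp u z = lp v z :=
  dv_congr (gr_eventuallyEq h)

/-! ### algebra of gradients -/

lemma gr_add {u v : ℂ → ℝ} {z : ℂ} (hu : DifferentiableAt ℝ u z) (hv : DifferentiableAt ℝ v z) :
    gr (fun w => u w + v w) z = gr u z + gr v z := by
  have h : HasFDerivAt (fun w => u w + v w) (fderiv ℝ u z + fderiv ℝ v z) z :=
    hu.hasFDerivAt.add hv.hasFDerivAt
  rw [h.gr, map_add, ← gr_eq, ← gr_eq]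

lemma gr_sub {u v : ℂ → ℝ} {z : ℂ} (hu : DifferentiableAt ℝ u z) (hv : DifferentiableAt ℝ v z) :
    gr (fun w => u w - v w) z = gr u z - gr v z := by
  have h : HasFDerivAt (fun w => u w - v w) (fderiv ℝ u z - fderiv ℝ v z) z :=
    hu.hasFDerivAt.sub hv.hasFDerivAt
  rw [h.gr, map_sub, ← gr_eq, ← gr_eq]

lemma gr_mul {u v : ℂ → ℝ} {z : ℂ} (hu : DifferentiableAt ℝ u z) (hv : DifferentiableAt ℝ v z) :
    gr (fun w => u w * v w) z = (u z : ℂ) * gr v z + (v z : ℂ) * gr u z := by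
  have h : HasFDerivAt (fun w => u w * v w) (u z • fderiv ℝ v z + v z • fderiv ℝ u z) z :=
    hu.hasFDerivAt.mul hv.hasFDerivAt
  rw [h.gr]
  apply Complex.ext <;> simp [grL_apply]

lemma gr_const_mul {v : ℂ → ℝ} {z : ℂ} (c : ℝ) (hv : DifferentiableAt ℝ v z) :
    gr (fun w => c * v w) z = (c : ℂ) * gr v z := by
  rw [(hv.hasFDerivAt.const_mul c).gr]
  apply Complex.ext <;> simp [grL_apply]

/-- Chain rule for the gradient. -/
lemma gr_comp {u : ℂ → ℝ} {z : ℂ} {K : ℝ → ℝ} {k : ℝ} (hK : HasDerivAt K k (u z))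
    (hu : DifferentiableAt ℝ u z) : gr (fun w => K (u w)) z = (k : ℂ) * gr u z := by
  have h : HasFDerivAt (fun w => K (u w)) (k • fderiv ℝ u z) z :=
    hK.comp_hasFDerivAt z hu.hasFDerivAt
  rw [h.gr]
  apply Complex.ext <;> simp [grL_apply]

/-! ### algebra of divergences -/

lemma dv_add {V W : ℂ → ℂ} {z : ℂ} (hV : DifferentiableAt ℝ V z) (hW : DifferentiableAt ℝ W z) :
    dv (fun w => V w + W w) z = dv V z + dv W z := by
  unfold dv; rw [fderiv_fun_add hV hW]; simp; ring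

lemma dv_sub {V W : ℂ → ℂ} {z : ℂ} (hV : DifferentiableAt ℝ V z) (hW : DifferentiableAt ℝ W z) :
    dv (fun w => V w - W w) z = dv V z - dv W z := by
  unfold dv; rw [fderiv_fun_sub hV hW]; simp; ring

@[simp] lemma dv_const (c : ℂ) (z : ℂ) : dv (fun _ => c) z = 0 := by
  unfold dv; simp

lemma dv_mul {g : ℂ → ℝ} {V : ℂ → ℂ} {z : ℂ} (hg : DifferentiableAt ℝ g z)
    (hV : DifferentiableAt ℝ V z) :
    dv (fun w => (g w : ℂ) * V w) z = g z * dv V z + ip (gr g z) (V z) := by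
  have h1 : HasFDerivAt (fun w => ((g w : ℝ) : ℂ)) (Complex.ofRealCLM.comp (fderiv ℝ g z)) z :=
    Complex.ofRealCLM.hasFDerivAt.comp z hg.hasFDerivAt
  have h2 : HasFDerivAt (fun w => (g w : ℂ) * V w) ((g z : ℂ) • fderiv ℝ V z +
      V z • (Complex.ofRealCLM.comp (fderiv ℝ g z))) z := h1.mul hV.hasFDerivAt
  unfold dv
  rw [h2.fderiv]
  simp [ip]
  ring

lemma dv_const_mul {V : ℂ → ℂ} {z : ℂ} (c : ℝ) (hV : DifferentiableAt ℝ V z) :
    dv (fun w => (c : ℂ) * V w) z = c * dv V z := by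
  have h := dv_mul (g := fun _ => c) (differentiableAt_const c) hV
  simpa using h

end Pool.Agent.MQ
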