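import Pool.Agent.H43.TL2.M22

/-!
# MQ/SNTube: saddle-nodes, estimates in a thin tube around the formal weak separatrix

The constant does not depend on the order `N` of the contact.
-/

set_option autoImplicit false

open Topology Filter Asymptotics Complex Set ComplexConjugate

noncomputable section

namespace Pool.Agent.MQ

/-- the potential -/
def pot (α : ℕ → ℂ) (k : ℕ) (x : ℂ) : ℂ := PP α k x / x ^ k

/-- the square of the modulus of the potential, scaled -/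
def scl (α : ℕ → ℂ) (k : ℕ) (ρ : ℝ) : ℝ := ρ ^ (2 * k) / ‖PP α k 0‖ ^ 2

theorem small_pow {C : ℝ} {n : ℕ} (hn : 1 ≤ n) {m : ℝ} (hm : 0 < m) : ∀ᶠ ρ in 𝓝[>] (0 : ℝ), C * ρ ^ n ≤ m := by
  have h : Tendsto (fun ρ : ℝ => C * ρ ^ n) (𝓝 0) (𝓝 0) := by
    have hc : Continuous (fun ρ : ℝ => C * ρ ^ n) := by fun_prop
    have := hc.tendsto 0
    simpa [zero_pow (by omega : n ≠ 0)] using this
  have h2 : ∀ᶠ ρ in 𝓝 (0 : ℝ), C * ρ ^ n < m := h (Iio_mem_nhds hm)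
  filter_upwards [h2.filter_mono nhdsWithin_le_nhds] with ρ hρ using le_of_lt hρ

theorem pow_isBigO {m n : ℕ} (h : m ≤ n) : (fun x : ℂ => x ^ n) =O[𝓝 0] fun x : ℂ => x ^ m := by
  refine IsBigO.of_bound 1 ?_
  have h1 : ∀ᶠ x : ℂ in 𝓝 0, ‖x‖ < 1 := by
    filter_upwards [Metric.ball_mem_nhds (0 : ℂ) one_pos] with x hx using by simpa using hx
  filter_upwards [h1] with x hx
  rw [norm_pow, norm_pow, one_mul]
  exact pow_le_pow_of_le_one (norm_nonneg _) hx.le h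

theorem jet_sub_isBigO (c : ℕ → ℂ) {k J : ℕ} (hkJ : k ≤ J) : (fun x : ℂ => jet c J x - jet c k x) =O[𝓝 0] fun x : ℂ => x ^ (k + 1) := by
  induction J, hkJ using Nat.le_induction with
  | base => simpa using isBigO_zero _ _
  | succ n hn ih =>
    have e : (fun x : ℂ => jet c (n + 1) x - jet c k x) = fun x => (jet c n x - jet c k x) + c (n + 1) * x ^ (n + 1) := by
      funext x
      rw [jet, Finset.sum_range_succ, ← jet]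
      ring
    rw [e]
    refine ih.add ?_
    have h1 : (fun x : ℂ => x ^ (n + 1)) =O[𝓝 0] fun x : ℂ => x ^ (k + 1) := pow_isBigO (by omega)
    exact h1.const_mul_left _

/-- the position of the shell -/
theorem scl_pos {α : ℕ → ℂ} {k : ℕ} (hk : 1 ≤ k) (h0 : α 0 ≠ 0) (r : ℝ) : ∀ᶠ ρ in 𝓝[>] (0 : ℝ), ∀ x : ℂ, ‖x‖ ≤ r →
    1 ≤ scl α k ρ * ‖pot α k x‖ ^ 2 → ‖x‖ ≤ 2 * ρ ∧ (scl α k ρ * ‖pot α k x‖ ^ 2 ≤ 2 → ρ / 2 ≤ ‖x‖) := by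
  have hP0 : 0 < ‖PP α k 0‖ := norm_pos_iff.2 (PP_zero hk h0)
  have hPc : Continuous (PP α k) := (PP_differentiable α k).continuous
  obtain ⟨B, hB⟩ := (isCompact_closedBall (0 : ℂ) r).bddAbove_image (f := fun x => ‖PP α k x‖) hPc.norm.continuousOn
  set B' := max B ‖PP α k 0‖ with hB'
  have hB'0 : 0 < B' := lt_of_lt_of_le hP0 (le_max_right _ _)
  have h1 : ∀ᶠ x in 𝓝 (0 : ℂ), ‖PP α k 0‖ / (4 / 3) < ‖PP α k x‖ ∧ ‖PP α k x‖ < 2 * ‖PP α k 0‖ := by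
    have ht : Tendsto (fun x => ‖PP α k x‖) (𝓝 0) (𝓝 ‖PP α k 0‖) := hPc.norm.tendsto 0
    exact (ht.eventually (lt_mem_nhds (by rw [div_lt_iff₀ (by norm_num)]; linarith))).and (ht.eventually (gt_mem_nhds (by linarith)))
  obtain ⟨r1, hr1, h1'⟩ := Metric.eventually_nhds_iff_ball.1 h1
  have h2 : ∀ᶠ ρ in 𝓝[>] (0 : ℝ), (B' / ‖PP α k 0‖) * ρ ^ k ≤ (r1 / 2) ^ k := small_pow hk (by positivity)
  filter_upwards [h2, self_mem_nhdsWithin] with ρ hρ hρ0 x hx hs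
  have hρ0' : 0 < ρ := hρ0
  have hx0 : x ≠ 0 := by
    rintro rfl
    have : pot α k 0 = 0 := by simp [pot, zero_pow (by omega : k ≠ 0)]
    rw [this] at hs
    simp at hs
    linarith
  have hxp : 0 < ‖x‖ := norm_pos_iff.2 hx0
  have hxk : 0 < ‖x‖ ^ k := by positivity
  have e1 : scl α k ρ * ‖pot α k x‖ ^ 2 = (ρ ^ k * ‖PP α k x‖ / (‖PP α k 0‖ * ‖x‖ ^ k)) ^ 2 := by
    rw [scl, pot, norm_div, norm_pow]
    field_simp
    ring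
  rw [e1] at hs ⊢
  have hq0 : 0 ≤ ρ ^ k * ‖PP α k x‖ / (‖PP α k 0‖ * ‖x‖ ^ k) := by positivity
  have hq1 : 1 ≤ ρ ^ k * ‖PP α k x‖ / (‖PP α k 0‖ * ‖x‖ ^ k) := by
    by_contra h
    push Not at h
    have : (ρ ^ k * ‖PP α k x‖ / (‖PP α k 0‖ * ‖x‖ ^ k)) ^ 2 < 1 := by nlinarith
    linarith
  rw [le_div_iff₀ (by positivity), one_mul] at hq1
  have hPx : ‖PP α k x‖ ≤ B' := (hB ⟨x, by simpa using hx, rfl⟩).trans (le_max_left _ _)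
  have hxr : ‖x‖ < r1 := by
    have h3 : ‖x‖ ^ k ≤ (r1 / 2) ^ k := by
      refine le_trans ?_ hρ
      rw [div_mul_eq_mul_div, le_div_iff₀ hP0]
      calc ‖x‖ ^ k * ‖PP α k 0‖ = ‖PP α k 0‖ * ‖x‖ ^ k := mul_comm _ _
        _ ≤ ρ ^ k * ‖PP α k x‖ := hq1
        _ ≤ ρ ^ k * B' := mul_le_mul_of_nonneg_left hPx (by positivity)
        _ = B' * ρ ^ k := mul_comm _ _
    have h4 : ‖x‖ ≤ r1 / 2 := le_of_pow_le_pow_left₀ (by omega) (by positivity) h3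
    linarith
  obtain ⟨g1, g2⟩ := h1' x (by simpa using hxr)
  constructor
  · have h3 : ‖x‖ ^ k ≤ (2 * ρ) ^ k := by
      have h4 : ‖PP α k 0‖ * ‖x‖ ^ k ≤ ‖PP α k 0‖ * (2 * ρ ^ k) := by
        calc ‖PP α k 0‖ * ‖x‖ ^ k ≤ ρ ^ k * ‖PP α k x‖ := hq1
          _ ≤ ρ ^ k * (2 * ‖PP α k 0‖) := mul_le_mul_of_nonneg_left g2.le (by positivity)
          _ = _ := by ring
      have h5 : ‖x‖ ^ k ≤ 2 * ρ ^ k := le_of_mul_le_mul_left h4 hP0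
      refine h5.trans ?_
      rw [mul_pow]
      have h6 : (2 : ℝ) ≤ 2 ^ k := by
        calc (2 : ℝ) = 2 ^ 1 := (pow_one _).symm
          _ ≤ 2 ^ k := pow_le_pow_right₀ one_le_two hk
      exact mul_le_mul_of_nonneg_right h6 (by positivity)
    exact le_of_pow_le_pow_left₀ (by omega) (by positivity) h3
  · intro hs2
    have h3 : (ρ / 2) ^ k ≤ ‖x‖ ^ k := by
      by_contra h
      push Not at h
      have h4 : ‖x‖ ^ k < ρ ^ k / 2 := by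
        refine h.trans_le ?_
        rw [div_pow]
        have h6 : (2 : ℝ) ≤ 2 ^ k := by
          calc (2 : ℝ) = 2 ^ 1 := (pow_one _).symm
            _ ≤ 2 ^ k := pow_le_pow_right₀ one_le_two hk
        exact div_le_div_of_nonneg_left (by positivity) (by norm_num) h6
      have h5 : 3 / 2 < ρ ^ k * ‖PP α k x‖ / (‖PP α k 0‖ * ‖x‖ ^ k) := by
        rw [lt_div_iff₀ (by positivity)]
        have h7 : ‖PP α k 0‖ < ‖PP α k x‖ * (4 / 3) := by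
          rwa [div_lt_iff₀ (by norm_num)] at g1
        have h8 : ‖PP α k 0‖ * ‖x‖ ^ k < ‖PP α k 0‖ * (ρ ^ k / 2) := mul_lt_mul_of_pos_left h4 hP0
        have h9 : ρ ^ k * ‖PP α k 0‖ < ρ ^ k * (‖PP α k x‖ * (4 / 3)) := mul_lt_mul_of_pos_left h7 (by positivity)
        nlinarith
      nlinarith
    exact le_of_pow_le_pow_left₀ (by omega) (by positivity) h3

theorem re_conj_nonneg {A B : ℂ} (h : ‖A - B‖ ≤ ‖B‖) : 0 ≤ (conj A * B).re := by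
  have e : (conj A * B).re = ‖B‖ ^ 2 + (conj (A - B) * B).re := by
    rw [Complex.sq_norm, Complex.normSq_apply]
    simp only [mul_re, conj_re, conj_im, map_sub, sub_re, sub_im]
    ring
  have h1 : |(conj (A - B) * B).re| ≤ ‖B‖ * ‖B‖ := by
    refine (Complex.abs_re_le_norm _).trans ?_
    rw [norm_mul, RCLike.norm_conj]
    exact mul_le_mul_of_nonneg_right h (norm_nonneg _)
  have h2 := neg_abs_le (conj (A - B) * B).re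
  rw [e]
  nlinarith

/-- **The estimates in the tube.** -/
theorem sn_tube {k : ℕ} (hk : 1 ≤ k) {a b : ℂ × ℂ → ℂ} (ha : AnalyticAt ℂ a 0) (hb : AnalyticAt ℂ b 0) (ha0 : a 0 ≠ 0)
    (hb0 : fderiv ℂ b 0 (0, 1) ≠ 0) {c : ℕ → ℂ} (hc : c 0 = 0)
    (hJ : ∀ J, (fun t => b (t, jet c J t) - deriv (jet c J) t * (t ^ (k + 1) * a (t, jet c J t))) =O[𝓝 0] fun t : ℂ => t ^ (J + 1)) (ε : ℂ) :
    ∃ (C : ℝ) (α : ℕ → ℂ), 0 < C ∧ α 0 ≠ 0 ∧ ∀ N : ℕ, ∀ᶠ ρ in 𝓝[>] (0 : ℝ), ∀ p : ℂ × ℂ, ‖p.1‖ ≤ 2 * ρ →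
      ‖p.2 - jet c (N + 3 * k + 3) p.1‖ ≤ ρ ^ (N + 2 * k + 2) →
      (ρ / 2 ≤ ‖p.1‖ → ∀ w : ℂ, ‖dlt k a b ε p * w - DD α k p.1 * a p * w‖ ≤ C * ‖(pot α k p.1)⁻¹‖ * ‖DD α k p.1 * a p * w‖ ∧
        ‖DD α k p.1 * a p * w * (pot α k p.1)⁻¹‖ ≤ C * ‖p.1 ^ k * a p * w‖) ∧
      (ρ ^ (N + 2 * k + 2) ≤ 2 * ‖p.2 - jet c (N + 3 * k + 3) p.1‖ → ρ / 2 ≤ ‖p.1‖ → ∀ w : ℂ,
        ‖yv k a b c (N + 3 * k + 3) p / (p.2 - jet c (N + 3 * k + 3) p.1) * w - DD α k p.1 * a p * w‖ ≤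
          C * ‖(pot α k p.1)⁻¹‖ * ‖DD α k p.1 * a p * w‖) ∧
      (ρ ^ (N + 2 * k + 2) ≤ 2 * ‖p.2 - jet c (N + 3 * k + 3) p.1‖ → ∀ w : ℂ,
        0 ≤ (conj (yv k a b c (N + 3 * k + 3) p / (p.2 - jet c (N + 3 * k + 3) p.1) * w) * (dlt k a b ε p * w)).re) := by
  obtain ⟨C1, α, hC1, hα, h1⟩ := sn_est1 hk ha hb ha0 hb0 hc ε
  obtain ⟨C2, hC2, h2⟩ := sn_est2 (k := k) ha hb hc ε
  have hδ : ContinuousAt (dlt k a b ε) 0 := by
    unfold dlt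
    have hda : ContinuousAt (fun p => fderiv ℂ a p (1, 0)) 0 := (an_fderiv_apply ha _).continuousAt
    have hdb : ContinuousAt (fun p => fderiv ℂ b p (0, 1)) 0 := (an_fderiv_apply hb _).continuousAt
    exact (((continuousAt_const).mul ((continuousAt_fst.pow k).mul ha.continuousAt)).add ((continuousAt_fst.pow (k + 1)).mul hda)).add hdb
  have hδ0 : dlt k a b ε 0 ≠ 0 := by
    unfold dlt
    simpa [zero_pow (by omega : k ≠ 0)] using hb0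
  set m : ℝ := ‖dlt k a b ε 0‖ / 2 with hm
  have hm0 : 0 < m := half_pos (norm_pos_iff.2 hδ0)
  have hP0 : 0 < ‖PP α k 0‖ := norm_pos_iff.2 (PP_zero hk hα)
  have h3 : ∀ᶠ p in 𝓝 (0 : ℂ × ℂ), m ≤ ‖dlt k a b ε p‖ := by
    filter_upwards [hδ.norm.eventually (lt_mem_nhds (show m < ‖dlt k a b ε 0‖ by rw [hm]; linarith))] with p hp using hp.le
  have ht1 : Tendsto (fun p : ℂ × ℂ => p.1) (𝓝 0) (𝓝 0) := continuous_fst.tendsto 0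
  have h4 : ∀ᶠ p : ℂ × ℂ in 𝓝 0, ‖PP α k 0‖ / 2 ≤ ‖PP α k p.1‖ ∧ ‖PP α k p.1‖ ≤ 2 * ‖PP α k 0‖ ∧ ‖DD α k p.1‖ ≤ ‖DD α k 0‖ + 1 := by
    have e1 : Tendsto (fun x => ‖PP α k x‖) (𝓝 0) (𝓝 ‖PP α k 0‖) := (PP_differentiable α k).continuous.norm.tendsto 0
    have e2 : Tendsto (fun x => ‖DD α k x‖) (𝓝 0) (𝓝 ‖DD α k 0‖) := (DD_differentiable α k).continuous.norm.tendsto 0
    filter_upwards [ht1.eventually (e1.eventually (lt_mem_nhds (show ‖PP α k 0‖ / 2 < ‖PP α k 0‖ by linarith))),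
      ht1.eventually (e1.eventually (gt_mem_nhds (show ‖PP α k 0‖ < 2 * ‖PP α k 0‖ by linarith))),
      ht1.eventually (e2.eventually (gt_mem_nhds (lt_add_one ‖DD α k 0‖)))] with p q1 q2 q3 using ⟨q1.le, q2.le, q3.le⟩
  set Ca : ℝ := C1 * (2 + 2 ^ k) with hCa
  set Cb : ℝ := C2 * (1 + 2 ^ k) + 1 with hCb
  set κ : ℝ := m / (2 ^ k * 4 * ‖PP α k 0‖) with hκ
  have hκ0 : 0 < κ := by positivity
  have hCa0 : 0 < Ca := by positivity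
  have hCb0 : 0 < Cb := by positivity
  refine ⟨(Ca + Cb) / κ + 2 * (‖DD α k 0‖ + 1) / ‖PP α k 0‖, α, by positivity, hα, fun N => ?_⟩
  set J := N + 3 * k + 3 with hJdef
  set n := N + 2 * k + 2 with hn
  obtain ⟨C3, hC3, h5⟩ := (jet_sub_isBigO c (show k ≤ J by omega)).exists_pos
  obtain ⟨C4, hC4, h6⟩ := (hJ J).exists_pos
  rw [isBigOWith_iff] at h5 h6
  have hU : ∀ᶠ p in 𝓝 (0 : ℂ × ℂ), (‖DD α k p.1 * a p - dlt k a b ε p‖ ≤ C1 * (‖p.2 - jet c k p.1‖ + ‖p.1‖ ^ k)) ∧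
      (‖yv k a b c J p - yv k a b c J (p.1, jet c J p.1) - dlt k a b ε p * (p.2 - jet c J p.1)‖ ≤
        C2 * (‖p.2 - jet c J p.1‖ + ‖p.1‖ ^ k) * ‖p.2 - jet c J p.1‖) ∧ m ≤ ‖dlt k a b ε p‖ ∧
      (‖PP α k 0‖ / 2 ≤ ‖PP α k p.1‖ ∧ ‖PP α k p.1‖ ≤ 2 * ‖PP α k 0‖ ∧ ‖DD α k p.1‖ ≤ ‖DD α k 0‖ + 1) ∧
      ‖jet c J p.1 - jet c k p.1‖ ≤ C3 * ‖p.1 ^ (k + 1)‖ ∧ ‖yv k a b c J (p.1, jet c J p.1)‖ ≤ C4 * ‖p.1 ^ (J + 1)‖ :=
    h1.and ((h2 J).and (h3.and (h4.and ((ht1.eventually h5).and (ht1.eventually h6)))))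
  have hT := tube_small hc J (show 1 ≤ n by omega) hU
  have s1 : ∀ᶠ ρ in 𝓝[>] (0 : ℝ), (C3 * 2 ^ (k + 1)) * ρ ^ 1 ≤ 1 := small_pow le_rfl one_pos
  have s2 : ∀ᶠ ρ in 𝓝[>] (0 : ℝ), (C4 * 2 ^ (J + 1)) * ρ ^ 2 ≤ 1 / 2 := small_pow (by norm_num) (by norm_num)
  have s3 : ∀ᶠ ρ in 𝓝[>] (0 : ℝ), Ca * ρ ^ k ≤ m / 2 := small_pow hk (by positivity)
  have s4 : ∀ᶠ ρ in 𝓝[>] (0 : ℝ), Cb * ρ ^ k ≤ m := small_pow hk hm0
  have s5 : ∀ᶠ ρ in 𝓝[>] (0 : ℝ), ρ < 1 := nhdsWithin_le_nhds (Iio_mem_nhds one_pos)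
  filter_upwards [hT, s1, s2, s3, s4, s5, self_mem_nhdsWithin] with ρ hT t1 t2 t3 t4 t5 t6 p hp1 hp2
  have hρ0 : 0 < ρ := t6
  obtain ⟨q1, q2, q3, ⟨q4, q5, q6⟩, q7, q8⟩ := hT p hp1 hp2
  clear hT hU h1 h2 h3 h4 h5 h6
  set x := p.1 with hx
  set Y := p.2 - jet c J x with hY
  have hρk : 0 < ρ ^ k := pow_pos hρ0 k
  have hρn : ρ ^ n ≤ ρ ^ k := pow_le_pow_of_le_one hρ0.le t5.le (by omega)
  have hxk : ‖x‖ ^ k ≤ 2 ^ k * ρ ^ k := by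
    rw [← mul_pow]
    exact pow_le_pow_left₀ (norm_nonneg _) hp1 k
  have e1 : ‖p.2 - jet c k x‖ ≤ 2 * ρ ^ k := by
    have e2 : p.2 - jet c k x = Y + (jet c J x - jet c k x) := by rw [hY]; ring
    rw [e2]
    refine (norm_add_le _ _).trans ?_
    have e3 : C3 * ‖x ^ (k + 1)‖ ≤ ρ ^ k := by
      rw [norm_pow]
      have e4 : ‖x‖ ^ (k + 1) ≤ 2 ^ (k + 1) * ρ ^ (k + 1) := by
        rw [← mul_pow]
        exact pow_le_pow_left₀ (norm_nonneg _) hp1 _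
      calc C3 * ‖x‖ ^ (k + 1) ≤ C3 * (2 ^ (k + 1) * ρ ^ (k + 1)) := mul_le_mul_of_nonneg_left e4 hC3.le
        _ = ((C3 * 2 ^ (k + 1)) * ρ ^ 1) * ρ ^ k := by ring
        _ ≤ 1 * ρ ^ k := mul_le_mul_of_nonneg_right t1 hρk.le
        _ = ρ ^ k := one_mul _
    linarith [q7, hp2]
  have E1 : ‖DD α k x * a p - dlt k a b ε p‖ ≤ Ca * ρ ^ k := by
    refine q1.trans ?_
    calc C1 * (‖p.2 - jet c k x‖ + ‖x‖ ^ k) ≤ C1 * (2 * ρ ^ k + 2 ^ k * ρ ^ k) :=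
          mul_le_mul_of_nonneg_left (add_le_add e1 hxk) hC1.le
      _ = Ca * ρ ^ k := by rw [hCa]; ring
  have E2 : ρ ^ n ≤ 2 * ‖Y‖ → ‖yv k a b c J p - dlt k a b ε p * Y‖ ≤ Cb * ρ ^ k * ‖Y‖ := by
    intro hYn
    have e2 : yv k a b c J p - dlt k a b ε p * Y = (yv k a b c J p - yv k a b c J (x, jet c J x) - dlt k a b ε p * Y) +
      yv k a b c J (x, jet c J x) := by ring
    rw [e2]
    refine (norm_add_le _ _).trans ?_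
    have e3 : C4 * ‖x ^ (J + 1)‖ ≤ ρ ^ k * ‖Y‖ := by
      rw [norm_pow]
      have e4 : ‖x‖ ^ (J + 1) ≤ 2 ^ (J + 1) * ρ ^ (J + 1) := by
        rw [← mul_pow]
        exact pow_le_pow_left₀ (norm_nonneg _) hp1 _
      have e5 : ρ ^ (J + 1) = ρ ^ 2 * (ρ ^ k * ρ ^ n) := by
        rw [← pow_add, ← pow_add]
        congr 1
        omega
      have e6 : 0 < ρ ^ k * ρ ^ n := by positivity
      calc C4 * ‖x‖ ^ (J + 1) ≤ C4 * (2 ^ (J + 1) * ρ ^ (J + 1)) := mul_le_mul_of_nonneg_left e4 hC4.le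
        _ = ((C4 * 2 ^ (J + 1)) * ρ ^ 2) * (ρ ^ k * ρ ^ n) := by rw [e5]; ring
        _ ≤ 1 / 2 * (ρ ^ k * ρ ^ n) := mul_le_mul_of_nonneg_right t2 e6.le
        _ = ρ ^ k * (ρ ^ n / 2) := by ring
        _ ≤ ρ ^ k * ‖Y‖ := mul_le_mul_of_nonneg_left (by linarith) hρk.le
    have e7 : C2 * (‖Y‖ + ‖x‖ ^ k) * ‖Y‖ ≤ C2 * (1 + 2 ^ k) * ρ ^ k * ‖Y‖ := by
      refine mul_le_mul_of_nonneg_right ?_ (norm_nonneg _)
      calc C2 * (‖Y‖ + ‖x‖ ^ k) ≤ C2 * (ρ ^ k + 2 ^ k * ρ ^ k) :=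
            mul_le_mul_of_nonneg_left (add_le_add (hp2.trans hρn) hxk) hC2.le
        _ = _ := by ring
    have e8 : Cb * ρ ^ k * ‖Y‖ = C2 * (1 + 2 ^ k) * ρ ^ k * ‖Y‖ + ρ ^ k * ‖Y‖ := by rw [hCb]; ring
    rw [e8]
    exact add_le_add (q2.trans e7) (q8.trans e3)
  have E3 : m / 2 ≤ ‖DD α k x * a p‖ := by
    have e2 := norm_sub_norm_le (dlt k a b ε p) (dlt k a b ε p - DD α k x * a p)
    rw [sub_sub_cancel, norm_sub_rev] at e2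
    linarith
  have E4 : ρ / 2 ≤ ‖x‖ → (ρ / 2) ^ k / (2 * ‖PP α k 0‖) ≤ ‖(pot α k x)⁻¹‖ := by
    intro hxl
    rw [pot, norm_inv, norm_div, norm_pow, inv_div]
    have hPx : 0 < ‖PP α k x‖ := by linarith
    exact div_le_div₀ (by positivity) (pow_le_pow_left₀ (by positivity) hxl k) hPx q5
  have E5 : ρ / 2 ≤ ‖x‖ → ∀ w : ℂ, κ * (ρ ^ k * ‖w‖) ≤ ‖(pot α k x)⁻¹‖ * ‖DD α k x * a p * w‖ := by
    intro hxl w
    rw [norm_mul (DD α k x * a p)]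
    calc κ * (ρ ^ k * ‖w‖) = ((ρ / 2) ^ k / (2 * ‖PP α k 0‖)) * (m / 2 * ‖w‖) := by
          rw [hκ, div_pow]; field_simp; ring
      _ ≤ ‖(pot α k x)⁻¹‖ * (‖DD α k x * a p‖ * ‖w‖) :=
          mul_le_mul (E4 hxl) (mul_le_mul_of_nonneg_right E3 (norm_nonneg _)) (by positivity) (norm_nonneg _)
  have hDP : 0 ≤ 2 * (‖DD α k 0‖ + 1) / ‖PP α k 0‖ := by positivity
  have hfin : ρ / 2 ≤ ‖x‖ → ∀ w : ℂ, (Ca + Cb) * (ρ ^ k * ‖w‖) ≤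
      ((Ca + Cb) / κ + 2 * (‖DD α k 0‖ + 1) / ‖PP α k 0‖) * ‖(pot α k x)⁻¹‖ * ‖DD α k x * a p * w‖ := by
    intro hxl w
    have e2 := E5 hxl w
    have e3 : (Ca + Cb) * (ρ ^ k * ‖w‖) = (Ca + Cb) / κ * (κ * (ρ ^ k * ‖w‖)) := by field_simp
    rw [e3, mul_assoc]
    have e4 : 0 ≤ ‖(pot α k x)⁻¹‖ * ‖DD α k x * a p * w‖ := by positivity
    calc (Ca + Cb) / κ * (κ * (ρ ^ k * ‖w‖)) ≤ (Ca + Cb) / κ * (‖(pot α k x)⁻¹‖ * ‖DD α k x * a p * w‖) :=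
          mul_le_mul_of_nonneg_left e2 (by positivity)
      _ ≤ _ := mul_le_mul_of_nonneg_right (by linarith) e4
  refine ⟨fun hxl w => ⟨?_, ?_⟩, fun hYn hxl w => ?_, fun hYn w => ?_⟩
  · refine le_trans ?_ (hfin hxl w)
    rw [← sub_mul, norm_mul, norm_sub_rev, ← mul_assoc]
    refine mul_le_mul_of_nonneg_right (E1.trans ?_) (norm_nonneg _)
    exact mul_le_mul_of_nonneg_right (by linarith) hρk.le
  · have hPx : 0 < ‖PP α k x‖ := by linarith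
    have e2 : ‖DD α k x * a p * w * (pot α k x)⁻¹‖ = ‖DD α k x‖ / ‖PP α k x‖ * ‖x ^ k * a p * w‖ := by
      rw [pot, inv_div]
      simp only [norm_mul, norm_div, norm_pow]
      field_simp
    rw [e2]
    refine mul_le_mul_of_nonneg_right ?_ (norm_nonneg _)
    have e3 : ‖DD α k x‖ / ‖PP α k x‖ ≤ (‖DD α k 0‖ + 1) / (‖PP α k 0‖ / 2) := div_le_div₀ (by positivity) q6 (by positivity) q4
    have e4 : (‖DD α k 0‖ + 1) / (‖PP α k 0‖ / 2) = 2 * (‖DD α k 0‖ + 1) / ‖PP α k 0‖ := by field_simp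
    have e5 : 0 ≤ (Ca + Cb) / κ := by positivity
    linarith
  · refine le_trans ?_ (hfin hxl w)
    have hYp : 0 < ‖Y‖ := by
      have := pow_pos hρ0 n
      linarith
    have hY0 : Y ≠ 0 := norm_pos_iff.1 hYp
    have e2 : yv k a b c J p / Y * w - DD α k x * a p * w =
      ((yv k a b c J p - dlt k a b ε p * Y) / Y - (DD α k x * a p - dlt k a b ε p)) * w := by
      field_simp
      ring
    rw [e2, norm_mul, ← mul_assoc]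
    refine mul_le_mul_of_nonneg_right ((norm_sub_le _ _).trans ?_) (norm_nonneg _)
    have e3 : ‖(yv k a b c J p - dlt k a b ε p * Y) / Y‖ ≤ Cb * ρ ^ k := by
      rw [norm_div, div_le_iff₀ hYp]
      exact E2 hYn
    linarith
  · have hYp : 0 < ‖Y‖ := by
      have := pow_pos hρ0 n
      linarith
    have hY0 : Y ≠ 0 := norm_pos_iff.1 hYp
    apply re_conj_nonneg
    rw [← sub_mul, norm_mul, norm_mul]
    refine mul_le_mul_of_nonneg_right ?_ (norm_nonneg _)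
    have e2 : yv k a b c J p / Y - dlt k a b ε p = (yv k a b c J p - dlt k a b ε p * Y) / Y := by
      field_simp
    rw [e2, norm_div, div_le_iff₀ hYp]
    refine (E2 hYn).trans ?_
    exact mul_le_mul_of_nonneg_right (t4.trans q3) hYp.le

end Pool.Agent.MQ
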